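import Mathlib

/-!
# Definitions for the covering number of `σ𝒢₀` on the Hilbert cube (MP_1496d7_lc)
-/

set_option autoImplicit false

namespace Pool.Agent.Helper75.HC

open Set

/-- The Hilbert cube `[0,1]^ω` with the product topology. -/
abbrev Cube : Type := ℕ → unitInterval

/-- `G` is a *minimal dense `G_δ`-set* of the Hilbert cube: it is a dense `G_δ`-set and every dense
`G_δ`-set `G'` contains the image of `G` under some self-homeomorphism of the Hilbert cube. -/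
def IsMinimalDenseGδ (G : Set Cube) : Prop :=
  IsGδ G ∧ Dense G ∧ ∀ G' : Set Cube, IsGδ G' → Dense G' → ∃ h : Cube ≃ₜ Cube, h '' G ⊆ G'

/-- The `σ`-ideal `σ𝒢₀`: all subsets of the Hilbert cube contained in a countable union of minimal
dense `G_δ`-sets. -/
def SigmaG0 : Set (Set Cube) :=
  {A | ∃ 𝒢 : Set (Set Cube), 𝒢.Countable ∧ (∀ G ∈ 𝒢, IsMinimalDenseGδ G) ∧ A ⊆ ⋃₀ 𝒢}

/-- Martin's Axiom: for every nonempty partial order `P` in which every set of pairwise incompatible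
elements is countable, and every family `𝒟` of fewer than `𝔠` dense subsets of `P`, there is a filter
`G` on `P` (nonempty, upward closed, any two members have a common lower bound in it) meeting every
member of `𝒟`. -/
def MartinsAxiom : Prop :=
  ∀ (P : Type) [PartialOrder P] [Nonempty P],
    (∀ A : Set P, (∀ p ∈ A, ∀ q ∈ A, p ≠ q → ¬ ∃ r, r ≤ p ∧ r ≤ q) → A.Countable) →
    ∀ 𝒟 : Set (Set P), Cardinal.mk 𝒟 < Cardinal.continuum →
      (∀ D ∈ 𝒟, ∀ p, ∃ d ∈ D, d ≤ p) →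
      ∃ G : Set P, G.Nonempty ∧ (∀ p ∈ G, ∀ q, p ≤ q → q ∈ G) ∧
        (∀ p ∈ G, ∀ q ∈ G, ∃ r ∈ G, r ≤ p ∧ r ≤ q) ∧ ∀ D ∈ 𝒟, (G ∩ D).Nonempty

end Pool.Agent.Helper75.HC
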