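import Mathlib
import Pool.Agent.Helper30.HexParity
import Pool.Agent.Helper75.HC.Defs

set_option autoImplicit false

namespace Pool.Agent.Helper75.HC

open Set Filter Topology

/-- grid point with denominators `L`, using the first `n` coordinates -/
noncomputable def gpt (L n : ℕ) (p : Fin n → ℕ) : Cube := fun k =>
  if h : k < n then Set.projIcc (0 : ℝ) 1 zero_le_one ((p ⟨k, h⟩ : ℝ) / L) else 0

lemma gpt_zero (L n : ℕ) (p : Fin n → ℕ) (i : Fin n) (h : p i = 0) : gpt L n p i = 0 := by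
  unfold gpt
  rw [dif_pos i.2]
  apply Subtype.ext
  simp [h, Set.projIcc]

lemma gpt_one (L n : ℕ) (hL : 0 < L) (p : Fin n → ℕ) (i : Fin n) (h : p i = L) :
    gpt L n p i = 1 := by
  unfold gpt
  rw [dif_pos i.2]
  apply Subtype.ext
  have : (p i : ℝ) / L = 1 := by
    rw [h]; field_simp
  simp [this, Set.projIcc]

lemma dist_gpt (L n : ℕ) (hL : 0 < L) (p q : Fin n → ℕ) (hpq : ∀ k, p k ≤ q k + 1 ∧ q k ≤ p k + 1)
    (k : ℕ) : |(gpt L n p k : ℝ) - gpt L n q k| ≤ 1 / L := by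
  unfold gpt
  by_cases h : k < n
  · rw [dif_pos h, dif_pos h]
    have h1 : |(Set.projIcc (0 : ℝ) 1 zero_le_one ((p ⟨k, h⟩ : ℝ) / L) : ℝ) -
        Set.projIcc (0 : ℝ) 1 zero_le_one ((q ⟨k, h⟩ : ℝ) / L)| ≤
        |(p ⟨k, h⟩ : ℝ) / L - (q ⟨k, h⟩ : ℝ) / L| := abs_projIcc_sub_projIcc zero_le_one
    refine h1.trans ?_
    rw [← sub_div, abs_div, abs_of_pos (show (0:ℝ) < L by exact_mod_cast hL)]
    apply div_le_div_of_nonneg_right _ (by positivity)
    obtain ⟨h2, h3⟩ := hpq ⟨k, h⟩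
    rw [abs_le]
    constructor
    · have : ((q ⟨k, h⟩ : ℕ) : ℝ) ≤ p ⟨k, h⟩ + 1 := by exact_mod_cast h3
      linarith
    · have : ((p ⟨k, h⟩ : ℕ) : ℝ) ≤ q ⟨k, h⟩ + 1 := by exact_mod_cast h2
      linarith
  · rw [dif_neg h, dif_neg h]
    simp

/-- the finite approximation -/
lemma approx (U : ℕ → Set Cube) (h0 : ∀ i, {x : Cube | x i = 0} ⊆ U i)
    (h1 : ∀ i, Disjoint {x : Cube | x i = 1} (U i)) (L : ℕ) (hL : 0 < L) :
    ∃ (x : Cube) (u v : ℕ → Cube), ∀ i < L, u i ∈ U i ∧ v i ∉ U i ∧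
      (∀ k, |(u i k : ℝ) - x k| ≤ 1 / L) ∧ (∀ k, |(v i k : ℝ) - x k| ≤ 1 / L) := by
  classical
  set b : ℕ → (Fin L → ℕ) → ZMod 2 := fun i p => if gpt L L p ∈ U i then 0 else 1 with hb
  have hB : Pool.Agent.Helper30.Hex.Bdry L L b := by
    constructor
    · intro i p _ hi
      have : gpt L L p ∈ U i := h0 i (gpt_zero L L p i hi)
      simp [hb, this]
    · intro i p _ hi
      have : gpt L L p ∉ U i := by
        intro hc
        exact Set.disjoint_left.1 (h1 i) (gpt_one L L hL p i hi) hc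
      simp [hb, this]
  obtain ⟨x, σ, hx⟩ := Pool.Agent.Helper30.Hex.exists_simplex L L b hB
  set w : ℕ → Cube := fun j => gpt L L (Pool.Agent.Helper30.Hex.vtx (fun k => (x k : ℕ)) σ j) with hw
  have hclose : ∀ i j k, |(w i k : ℝ) - w j k| ≤ 1 / L := by
    intro i j k
    apply dist_gpt L L hL
    intro k
    unfold Pool.Agent.Helper30.Hex.vtx
    split_ifs <;> omega
  have hdiff : ∀ i, i < L → (w i ∈ U i ∧ w (i + 1) ∉ U i) ∨ (w i ∉ U i ∧ w (i + 1) ∈ U i) := by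
    intro i hi
    have h3 := hx i hi
    by_cases h4 : w i ∈ U i <;> by_cases h5 : w (i + 1) ∈ U i
    · exfalso; apply h3
      simp only [hb]
      rw [if_pos (show gpt L L (Pool.Agent.Helper30.Hex.vtx (fun k => (x k : ℕ)) σ i) ∈ U i from h4),
        if_pos (show gpt L L (Pool.Agent.Helper30.Hex.vtx (fun k => (x k : ℕ)) σ (i + 1)) ∈ U i from h5)]
    · exact Or.inl ⟨h4, h5⟩
    · exact Or.inr ⟨h4, h5⟩
    · exfalso; apply h3
      simp only [hb]
      rw [if_neg (show gpt L L (Pool.Agent.Helper30.Hex.vtx (fun k => (x k : ℕ)) σ i) ∉ U i from h4),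
        if_neg (show gpt L L (Pool.Agent.Helper30.Hex.vtx (fun k => (x k : ℕ)) σ (i + 1)) ∉ U i from h5)]
  refine ⟨w 0, fun i => if w i ∈ U i then w i else w (i + 1),
    fun i => if w i ∈ U i then w (i + 1) else w i, ?_⟩
  intro i hi
  rcases hdiff i hi with ⟨h4, h5⟩ | ⟨h4, h5⟩
  · simp only [if_pos h4]
    exact ⟨h4, h5, fun k => hclose _ _ _, fun k => hclose _ _ _⟩
  · simp only [if_neg h4]
    exact ⟨h5, h4, fun k => hclose _ _ _, fun k => hclose _ _ _⟩

/-- The faces of the Hilbert cube form an essential family. -/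
theorem essential (U : ℕ → Set Cube) (hU : ∀ i, IsOpen (U i))
    (h0 : ∀ i, {x : Cube | x i = 0} ⊆ U i)
    (h1 : ∀ i, Disjoint {x : Cube | x i = 1} (U i)) :
    ∃ x : Cube, ∀ i, x ∈ frontier (U i) := by
  choose x u v H using fun L : ℕ => approx U h0 h1 (L + 1) (Nat.succ_pos L)
  -- a limit point along an ultrafilter
  obtain ⟨F, hF⟩ : ∃ F : Ultrafilter ℕ, (F : Filter ℕ) ≤ atTop := ⟨Ultrafilter.of atTop, Ultrafilter.of_le _⟩
  obtain ⟨y, -, hy⟩ := isCompact_univ.ultrafilter_le_nhds (F.map x) (by simp)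
  have hlim : Tendsto x F (𝓝 y) := hy
  have hcoord : ∀ k, Tendsto (fun L => (x L k : ℝ)) F (𝓝 (y k : ℝ)) := by
    intro k
    exact ((continuous_subtype_val.comp (continuous_apply k)).tendsto y).comp hlim
  have hsmall : Tendsto (fun L : ℕ => (1 : ℝ) / ((L + 1 : ℕ) : ℝ)) F (𝓝 0) := by
    apply Tendsto.mono_left _ hF
    have := tendsto_one_div_add_atTop_nhds_zero_nat (𝕜 := ℝ)
    simpa using this
  have key : ∀ w : ℕ → Cube, (∀ᶠ L in (F : Filter ℕ), ∀ k, |(w L k : ℝ) - x L k| ≤ 1 / ((L + 1 : ℕ) : ℝ)) →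
      Tendsto w F (𝓝 y) := by
    intro w hw
    rw [tendsto_pi_nhds]
    intro k
    rw [tendsto_subtype_rng]
    have h3 : Tendsto (fun L => (w L k : ℝ) - x L k) F (𝓝 0) := by
      apply squeeze_zero_norm' _ hsmall
      filter_upwards [hw] with L hL
      exact hL k
    have h4 := h3.add (hcoord k)
    simpa using h4
  refine ⟨y, fun i => ?_⟩
  have hev : ∀ᶠ L in (F : Filter ℕ), i < L + 1 := hF ((eventually_ge_atTop i).mono fun L h => by omega)
  have hu : Tendsto (fun L => u L i) F (𝓝 y) :=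
    key _ (hev.mono fun L hL => (H L i hL).2.2.1)
  have hv : Tendsto (fun L => v L i) F (𝓝 y) :=
    key _ (hev.mono fun L hL => (H L i hL).2.2.2)
  rw [(hU i).frontier_eq]
  constructor
  · exact mem_closure_of_tendsto hu (hev.mono fun L hL => (H L i hL).1)
  · have : y ∈ (U i)ᶜ := (hU i).isClosed_compl.mem_of_tendsto hv
      (hev.mono fun L hL => (H L i hL).2.1)
    exact this

end Pool.Agent.Helper75.HC
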