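import Mathlib
import Pool.Agent.Helper75.HC.Defs

set_option autoImplicit false

namespace Pool.Agent.Helper75.HC

open Set Filter Cardinal

variable {ι : Type}

/-- conditions of the localisation forcing -/
@[ext] structure Cond (f : ι → ℕ → ℕ) where
  /-- stem -/
  s : List (Finset ℕ)
  /-- promises -/
  F : Finset ι
  hs : ∀ m < s.length, (s.getD m ∅).card ≤ m
  hF : 2 * F.card ≤ s.length

namespace Cond

variable {f : ι → ℕ → ℕ}

instance : PartialOrder (Cond f) where
  le p q := q.s <+: p.s ∧ q.F ⊆ p.F ∧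
    ∀ m, q.s.length ≤ m → m < p.s.length → ∀ i ∈ q.F, f i m ∈ p.s.getD m ∅
  le_refl p := ⟨List.prefix_refl _, Finset.Subset.refl _, fun m h1 h2 => by omega⟩
  le_trans := by
    intro p q r ⟨h1, h2, h3⟩ ⟨h4, h5, h6⟩
    refine ⟨h4.trans h1, h5.trans h2, fun m hm1 hm2 i hi => ?_⟩
    by_cases hm : m < q.s.length
    · have h7 := h6 m hm1 hm i hi
      have h8 : p.s.getD m ∅ = q.s.getD m ∅ := by
        obtain ⟨t, ht⟩ := h1
        rw [← ht, List.getD_append _ _ _ _ hm]
      rw [h8]; exact h7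
    · exact h3 m (not_lt.1 hm) hm2 i (h5 hi)
  le_antisymm := by
    intro p q ⟨h1, h2, _⟩ ⟨h4, h5, _⟩
    ext1
    · exact h4.eq_of_length (le_antisymm h4.length_le h1.length_le)
    · exact Finset.Subset.antisymm h5 h2

lemma le_def (p q : Cond f) : p ≤ q ↔ q.s <+: p.s ∧ q.F ⊆ p.F ∧
    ∀ m, q.s.length ≤ m → m < p.s.length → ∀ i ∈ q.F, f i m ∈ p.s.getD m ∅ := Iff.rfl

instance : Nonempty (Cond f) := ⟨⟨[], ∅, by simp, by simp⟩⟩

/-- common extension tool: add `k` more levels containing the values of the functions in `H`, then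
allow promises `H'`. -/
lemma exists_ext [DecidableEq ι] (s : List (Finset ℕ)) (hs : ∀ m < s.length, (s.getD m ∅).card ≤ m) (H : Finset ι)
    (hH : H.card ≤ s.length) (k : ℕ) :
    ∃ t : List (Finset ℕ), t.length = s.length + k ∧ s <+: t ∧ (∀ m < t.length, (t.getD m ∅).card ≤ m) ∧
      ∀ m, s.length ≤ m → m < t.length → ∀ i ∈ H, f i m ∈ t.getD m ∅ := by
  refine ⟨s ++ (List.range k).map (fun j => H.image (fun i => f i (s.length + j))), by simp,
    List.prefix_append _ _, ?_, ?_⟩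
  · intro m hm
    by_cases h : m < s.length
    · rw [List.getD_append _ _ _ _ h]
      exact hs m h
    · push Not at h
      rw [List.getD_append_right _ _ _ _ h]
      simp only [List.length_append, List.length_map, List.length_range] at hm
      rw [List.getD_eq_getElem _ _ (by simp; omega)]
      simp only [List.getElem_map, List.getElem_range]
      exact (Finset.card_image_le).trans (hH.trans h)
  · intro m h hm i hi
    rw [List.getD_append_right _ _ _ _ h]
    simp only [List.length_append, List.length_map, List.length_range] at hm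
    rw [List.getD_eq_getElem _ _ (by simp; omega)]
    simp only [List.getElem_map, List.getElem_range]
    apply Finset.mem_image.2
    exact ⟨i, hi, by congr 1; omega⟩

/-- any two conditions with the same stem are compatible -/
lemma compat [DecidableEq ι] (p q : Cond f) (h : p.s = q.s) : ∃ r, r ≤ p ∧ r ≤ q := by
  have hc : (p.F ∪ q.F).card ≤ p.s.length := by
    have h1 := p.hF
    have h2 := q.hF
    rw [← h] at h2
    exact (Finset.card_union_le _ _).trans (by omega)
  obtain ⟨t, ht1, ht2, ht3, ht4⟩ := exists_ext (f := f) p.s p.hs (p.F ∪ q.F) hc p.s.length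
  refine ⟨⟨t, p.F ∪ q.F, ht3, by omega⟩, ?_, ?_⟩
  · refine ⟨ht2, Finset.subset_union_left, fun m hm1 hm2 i hi => ht4 m hm1 hm2 i (Finset.mem_union_left _ hi)⟩
  · refine ⟨h ▸ ht2, Finset.subset_union_right, fun m hm1 hm2 i hi => ?_⟩
    rw [← h] at hm1
    exact ht4 m hm1 hm2 i (Finset.mem_union_right _ hi)

lemma ccc (A : Set (Cond f)) (hA : ∀ p ∈ A, ∀ q ∈ A, p ≠ q → ¬ ∃ r, r ≤ p ∧ r ≤ q) : A.Countable := by
  classical
  have : Set.InjOn (fun p : Cond f => p.s) A := by
    intro p hp q hq hpq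
    by_contra hne
    exact hA p hp q hq hne (compat p q hpq)
  exact Set.countable_of_injective_of_countable_image this (Set.to_countable _)

lemma dense_mem (i : ι) (p : Cond f) : ∃ d ∈ {d : Cond f | i ∈ d.F}, d ≤ p := by
  classical
  obtain ⟨t, ht1, ht2, ht3, ht4⟩ := exists_ext (f := f) p.s p.hs p.F (by have := p.hF; omega) 2
  refine ⟨⟨t, insert i p.F, ht3, ?_⟩, ?_, ?_⟩
  · have h1 := p.hF
    have h2 := Finset.card_insert_le i p.F
    omega
  · exact Finset.mem_insert_self _ _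
  · exact ⟨ht2, Finset.subset_insert _ _, ht4⟩

lemma dense_len (k : ℕ) (p : Cond f) : ∃ d ∈ {d : Cond f | k < d.s.length}, d ≤ p := by
  classical
  obtain ⟨t, ht1, ht2, ht3, ht4⟩ := exists_ext (f := f) p.s p.hs p.F (by have := p.hF; omega) (k + 1)
  refine ⟨⟨t, p.F, ht3, ?_⟩, ?_, ?_⟩
  · have h1 := p.hF
    omega
  · show k < t.length
    omega
  · exact ⟨ht2, Finset.Subset.refl _, ht4⟩

end Cond

/-- Under Martin's Axiom fewer than `𝔠` functions are localised by a single slalom. -/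
theorem localize (MA : MartinsAxiom) (f : ι → ℕ → ℕ) (hι : Cardinal.mk ι < Cardinal.continuum) :
    ∃ S : ℕ → Finset ℕ, (∀ m, (S m).card ≤ m) ∧ ∀ i, ∀ᶠ m in atTop, f i m ∈ S m := by
  classical
  set 𝒟 : Set (Set (Cond f)) := Set.range (Sum.elim (fun i : ι => {d : Cond f | i ∈ d.F})
    (fun k : ℕ => {d : Cond f | k < d.s.length})) with h𝒟
  have hcard : Cardinal.mk 𝒟 < Cardinal.continuum := by
    refine Cardinal.mk_range_le.trans_lt ?_
    rw [Cardinal.mk_sum, Cardinal.lift_id, Cardinal.lift_id]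
    exact Cardinal.add_lt_of_lt Cardinal.aleph0_le_continuum hι (by simpa using Cardinal.aleph0_lt_continuum)
  have hdense : ∀ D ∈ 𝒟, ∀ p, ∃ d ∈ D, d ≤ p := by
    rintro D ⟨i | k, rfl⟩ p
    · exact Cond.dense_mem i p
    · exact Cond.dense_len k p
  obtain ⟨G, -, -, hG2, hG3⟩ := MA (Cond f) Cond.ccc 𝒟 hcard hdense
  have hlen : ∀ k, ∃ p ∈ G, k < p.s.length := by
    intro k
    obtain ⟨p, hp1, hp2⟩ := hG3 _ ⟨Sum.inr k, rfl⟩
    exact ⟨p, hp1, hp2⟩
  have hmem : ∀ i, ∃ p ∈ G, i ∈ p.F := by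
    intro i
    obtain ⟨p, hp1, hp2⟩ := hG3 _ ⟨Sum.inl i, rfl⟩
    exact ⟨p, hp1, hp2⟩
  choose P hP1 hP2 using hlen
  have hagree : ∀ p ∈ G, ∀ m < p.s.length, p.s.getD m ∅ = (P m).s.getD m ∅ := by
    intro p hp m hm
    obtain ⟨r, -, ⟨⟨t1, ht1⟩, -, -⟩, ⟨⟨t2, ht2⟩, -, -⟩⟩ := hG2 p hp (P m) (hP1 m)
    rw [← List.getD_append _ t1 _ _ hm, ht1, ← ht2, List.getD_append _ _ _ _ (hP2 m)]
  refine ⟨fun m => (P m).s.getD m ∅, fun m => (P m).hs m (hP2 m), fun i => ?_⟩
  obtain ⟨p, hp, hi⟩ := hmem i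
  filter_upwards [eventually_ge_atTop p.s.length] with m hm
  obtain ⟨r, hr, hr1, hr2⟩ := hG2 p hp (P m) (hP1 m)
  have h1 : m < r.s.length := lt_of_lt_of_le (hP2 m) hr2.1.length_le
  have h2 := hr1.2.2 m hm h1 i hi
  rw [hagree r hr m h1] at h2
  exact h2

end Pool.Agent.Helper75.HC
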