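import Mathlib
import Pool.Agent.Helper75.HC.Essential

set_option autoImplicit false

namespace Pool.Agent.Helper75.HC

open Set Filter Topology

/-- coordinatewise closeness -/
def Close (k : ℕ) (x y : Cube) : Prop := ∀ i < k, |(x i : ℝ) - y i| < 1 / ((k : ℝ) + 1)

/-- `k`-small sets -/
def Small (k : ℕ) (b : Set Cube) : Prop := ∀ x ∈ b, ∀ y ∈ b, Close k x y

lemma Close.mono {k l : ℕ} (h : k ≤ l) {x y : Cube} (hc : Close l x y) : Close k x y := by
  intro i hi
  refine (hc i (lt_of_lt_of_le hi h)).trans_le ?_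
  apply one_div_le_one_div_of_le
  · positivity
  · have : (k : ℝ) ≤ l := by exact_mod_cast h
    linarith

lemma Small.mono {k l : ℕ} (h : k ≤ l) {b : Set Cube} (hc : Small l b) : Small k b :=
  fun x hx y hy => (hc x hx y hy).mono h

lemma close_self (k : ℕ) (x : Cube) : Close k x x := by
  intro i _
  simp only [sub_self, abs_zero]
  positivity

lemma isOpen_close (k : ℕ) (x : Cube) : IsOpen {y : Cube | Close k x y} := by
  have : {y : Cube | Close k x y} = ⋂ i ∈ Finset.range k, {y : Cube | |(x i : ℝ) - y i| < 1 / ((k : ℝ) + 1)} := by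
    ext y
    simp [Close]
  rw [this]
  apply isOpen_biInter_finset
  intro i _
  apply isOpen_lt _ continuous_const
  fun_prop

lemma exists_small_nhds (k : ℕ) (x : Cube) : ∃ W : Set Cube, IsOpen W ∧ x ∈ W ∧ Small k W := by
  refine ⟨{y : Cube | ∀ i < k, |(x i : ℝ) - y i| < 1 / (2 * ((k : ℝ) + 1))}, ?_, ?_, ?_⟩
  · have : {y : Cube | ∀ i < k, |(x i : ℝ) - y i| < 1 / (2 * ((k : ℝ) + 1))} =
        ⋂ i ∈ Finset.range k, {y : Cube | |(x i : ℝ) - y i| < 1 / (2 * ((k : ℝ) + 1))} := by
      ext y
      simp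
    rw [this]
    apply isOpen_biInter_finset
    intro i _
    apply isOpen_lt _ continuous_const
    fun_prop
  · intro i _
    simp only [sub_self, abs_zero]
    positivity
  · intro y hy z hz i hi
    have h1 := hy i hi
    have h2 := hz i hi
    have h3 : |(y i : ℝ) - z i| ≤ |(x i : ℝ) - y i| + |(x i : ℝ) - z i| := by
      have : (y i : ℝ) - z i = -((x i : ℝ) - y i) + ((x i : ℝ) - z i) := by ring
      rw [this]
      exact (abs_add_le _ _).trans (by rw [abs_neg])
    have h4 : 1 / ((k : ℝ) + 1) = 1 / (2 * ((k : ℝ) + 1)) + 1 / (2 * ((k : ℝ) + 1)) := by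
      field_simp
      norm_num
    rw [h4]
    linarith

/-- uniform continuity in terms of `Close` -/
lemma unif (g : Cube → Cube) (hg : Continuous g) (k : ℕ) :
    ∃ l, ∀ x y, Close l x y → Close k (g x) (g y) := by
  by_contra hcon
  push Not at hcon
  choose x y hxy hn using hcon
  obtain ⟨F, hF⟩ : ∃ F : Ultrafilter ℕ, (F : Filter ℕ) ≤ atTop := ⟨Ultrafilter.of atTop, Ultrafilter.of_le _⟩
  obtain ⟨z, -, hz⟩ := isCompact_univ.ultrafilter_le_nhds (F.map x) (by simp)
  have hx : Tendsto x F (𝓝 z) := hz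
  have hsmall : Tendsto (fun L : ℕ => (1 : ℝ) / ((L : ℝ) + 1)) F (𝓝 0) :=
    Tendsto.mono_left tendsto_one_div_add_atTop_nhds_zero_nat hF
  have hy : Tendsto y F (𝓝 z) := by
    rw [tendsto_pi_nhds]
    intro i
    rw [tendsto_subtype_rng]
    have h3 : Tendsto (fun L => (y L i : ℝ) - x L i) F (𝓝 0) := by
      apply squeeze_zero_norm' _ hsmall
      have hev : ∀ᶠ L in (F : Filter ℕ), i < L := hF (eventually_gt_atTop i)
      filter_upwards [hev] with L hL
      rw [Real.norm_eq_abs, abs_sub_comm]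
      exact (hxy L i hL).le
    have hci : Continuous (fun w : Cube => (w i : ℝ)) := continuous_subtype_val.comp (continuous_apply i)
    have h4 : Tendsto (fun L => (x L i : ℝ)) F (𝓝 (z i : ℝ)) := (hci.tendsto z).comp hx
    have h5 := h3.add h4
    simpa using h5
  have hgx : Tendsto (fun L => g (x L)) F (𝓝 (g z)) := (hg.tendsto z).comp hx
  have hgy : Tendsto (fun L => g (y L)) F (𝓝 (g z)) := (hg.tendsto z).comp hy
  have hev : ∀ᶠ L in (F : Filter ℕ), Close k (g (x L)) (g (y L)) := by
    have : ∀ i ∈ Finset.range k, ∀ᶠ L in (F : Filter ℕ),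
        |((g (x L)) i : ℝ) - (g (y L)) i| < 1 / ((k : ℝ) + 1) := by
      intro i _
      have hci : Continuous (fun w : Cube => (w i : ℝ)) := continuous_subtype_val.comp (continuous_apply i)
      have h1 : Tendsto (fun L => ((g (x L)) i : ℝ) - (g (y L)) i) F (𝓝 ((g z i : ℝ) - g z i)) :=
        ((hci.tendsto (g z)).comp hgx).sub ((hci.tendsto (g z)).comp hgy)
      rw [sub_self] at h1
      have h2 := h1.abs
      rw [abs_zero] at h2
      exact h2.eventually (gt_mem_nhds (by positivity))
    rw [← Filter.eventually_all_finset] at this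
    filter_upwards [this] with L hL i hi
    exact hL i (Finset.mem_range.2 hi)
  obtain ⟨L, hL⟩ := hev.exists
  exact hn L hL

/-- null families of sets with pairwise disjoint closures, of mesh tending to zero -/
structure Good (b : ℕ → ℕ → Set Cube) : Prop where
  disj : ∀ j, Pairwise (fun n m => Disjoint (closure (b j n)) (closure (b j m)))
  null : ∀ j k, ∀ᶠ n in atTop, Small k (b j n)
  mesh : ∀ k, ∀ᶠ j in atTop, ∀ n, Small k (b j n)

lemma Good.preimage {b : ℕ → ℕ → Set Cube} (hb : Good b) (h : Cube ≃ₜ Cube) :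
    Good (fun j n => h ⁻¹' b j n) := by
  have key : ∀ k, ∃ l, ∀ s : Set Cube, Small l s → Small k (h ⁻¹' s) := by
    intro k
    obtain ⟨l, hl⟩ := unif h.symm h.symm.continuous k
    refine ⟨l, fun s hs x hx y hy => ?_⟩
    have := hl _ _ (hs _ hx _ hy)
    simpa using this
  constructor
  · intro j n m hnm
    have := hb.disj j hnm
    show Disjoint (closure (h ⁻¹' b j n)) (closure (h ⁻¹' b j m))
    rw [← h.preimage_closure, ← h.preimage_closure]
    exact Disjoint.preimage h this
  · intro j k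
    obtain ⟨l, hl⟩ := key k
    exact (hb.null j l).mono fun n hn => hl _ hn
  · intro k
    obtain ⟨l, hl⟩ := key k
    exact (hb.mesh l).mono fun n hn m => hl _ (hn m)

section construct

/-- the next set of the greedy construction -/
lemma exists_pick (k : ℕ) (C : Set Cube) (q : Cube) :
    ∃ W : Set Cube, IsOpen W ∧ Small k W ∧ (IsClosed C → Disjoint (closure W) C) ∧
      (IsClosed C → q ∉ C → q ∈ W) := by
  classical
  by_cases h : IsClosed C ∧ q ∉ C
  · obtain ⟨W1, hW1, hq1, hs⟩ := exists_small_nhds k q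
    have h2 : Cᶜ ∈ 𝓝 q := h.1.isOpen_compl.mem_nhds h.2
    obtain ⟨W2, hq2, hW2c, hW2⟩ := exists_mem_nhds_isClosed_subset h2
    refine ⟨W1 ∩ interior W2, hW1.inter isOpen_interior, fun x hx y hy => hs x hx.1 y hy.1,
      fun _ => ?_, fun _ _ => ⟨hq1, mem_interior_iff_mem_nhds.2 hq2⟩⟩
    have h3 : closure (W1 ∩ interior W2) ⊆ W2 := by
      apply closure_minimal _ hW2c
      exact fun x hx => interior_subset hx.2
    exact Set.disjoint_left.2 fun x hx hxC => hW2 (h3 hx) hxC
  · refine ⟨∅, isOpen_empty, fun x hx => hx.elim, fun _ => by simp, fun hc hq => ?_⟩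
    exact absurd ⟨hc, hq⟩ h

/-- the greedily chosen set -/
noncomputable def pick (k : ℕ) (C : Set Cube) (q : Cube) : Set Cube :=
  Classical.choose (exists_pick k C q)

lemma pick_spec (k : ℕ) (C : Set Cube) (q : Cube) :
    IsOpen (pick k C q) ∧ Small k (pick k C q) ∧ (IsClosed C → Disjoint (closure (pick k C q)) C) ∧
      (IsClosed C → q ∉ C → q ∈ pick k C q) :=
  Classical.choose_spec (exists_pick k C q)

/-- accumulated closed set -/
noncomputable def acc (j : ℕ) : ℕ → Set Cube
  | 0 => ∅
  | n + 1 => acc j n ∪ closure (pick (j + n) (acc j n) (TopologicalSpace.denseSeq Cube n))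

/-- the greedy family -/
noncomputable def fam (j n : ℕ) : Set Cube :=
  pick (j + n) (acc j n) (TopologicalSpace.denseSeq Cube n)

lemma acc_closed (j n : ℕ) : IsClosed (acc j n) := by
  induction n with
  | zero => exact isClosed_empty
  | succ n ih => exact ih.union isClosed_closure

lemma acc_mono (j : ℕ) {n m : ℕ} (h : n ≤ m) : acc j n ⊆ acc j m := by
  induction h with
  | refl => exact subset_rfl
  | step h ih => exact ih.trans subset_union_left

lemma acc_eq (j n : ℕ) : acc j n = ⋃ m ∈ Finset.range n, closure (fam j m) := by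
  induction n with
  | zero => simp [acc]
  | succ n ih =>
    rw [Finset.range_add_one, Finset.set_biUnion_insert, ← ih, union_comm]
    rfl

lemma exists_good : ∃ b : ℕ → ℕ → Set Cube, Good b ∧ (∀ j n, IsOpen (b j n)) ∧
    ∀ j, Dense (⋃ n, b j n) := by
  refine ⟨fam, ⟨?_, ?_, ?_⟩, ?_, ?_⟩
  · intro j
    have h1 : ∀ n m, m < n → Disjoint (closure (fam j n)) (closure (fam j m)) := by
      intro n m hm
      have h2 : Disjoint (closure (fam j n)) (acc j n) :=
        (pick_spec (j + n) (acc j n) (TopologicalSpace.denseSeq Cube n)).2.2.1 (acc_closed j n)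
      apply h2.mono_right
      calc closure (fam j m) ⊆ acc j (m + 1) := subset_union_right
        _ ⊆ acc j n := acc_mono j hm
    intro n m hnm
    rcases lt_or_gt_of_ne hnm with h | h
    · exact (h1 m n h).symm
    · exact h1 n m h
  · intro j k
    filter_upwards [eventually_ge_atTop k] with n hn
    exact (pick_spec (j + n) (acc j n) (TopologicalSpace.denseSeq Cube n)).2.1.mono (by omega)
  · intro k
    filter_upwards [eventually_ge_atTop k] with j hj n
    exact (pick_spec (j + n) (acc j n) (TopologicalSpace.denseSeq Cube n)).2.1.mono (by omega)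
  · intro j n
    exact (pick_spec (j + n) (acc j n) (TopologicalSpace.denseSeq Cube n)).1
  · intro j
    rw [dense_iff_inter_open]
    intro W hW hne
    obtain ⟨q, hqW, n, hn⟩ := (TopologicalSpace.denseRange_denseSeq Cube).inter_open_nonempty W hW hne
    by_cases hq : TopologicalSpace.denseSeq Cube n ∈ acc j n
    · rw [acc_eq] at hq
      simp only [Finset.mem_range, mem_iUnion, exists_prop] at hq
      obtain ⟨m, _, hm2⟩ := hq
      rw [hn] at hm2
      obtain ⟨z, hz1, hz2⟩ := mem_closure_iff.1 hm2 W hW hqW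
      exact ⟨z, hz1, mem_iUnion.2 ⟨m, hz2⟩⟩
    · have h3 := (pick_spec (j + n) (acc j n) (TopologicalSpace.denseSeq Cube n)).2.2.2
        (acc_closed j n) hq
      rw [hn] at h3
      refine ⟨q, hqW, mem_iUnion.2 ⟨n, ?_⟩⟩
      show q ∈ pick (j + n) (acc j n) (TopologicalSpace.denseSeq Cube n)
      rw [hn]; exact h3

end construct

lemma minimal_good {G : Set Cube} (hG : IsMinimalDenseGδ G) :
    ∃ b : ℕ → ℕ → Set Cube, Good b ∧ G ⊆ ⋂ j, ⋃ n, b j n := by
  obtain ⟨b, hb, ho, hd⟩ := exists_good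
  have h1 : IsGδ (⋂ j, ⋃ n, b j n) := IsGδ.iInter_of_isOpen fun j => isOpen_iUnion fun n => ho j n
  have h2 : Dense (⋂ j, ⋃ n, b j n) := dense_iInter_of_isOpen (fun j => isOpen_iUnion fun n => ho j n) hd
  obtain ⟨h, hh⟩ := hG.2.2 _ h1 h2
  refine ⟨_, hb.preimage h, ?_⟩
  intro x hx
  have := hh (mem_image_of_mem h hx)
  simpa using this

/-- reindexed version -/
lemma minimal_good' {G : Set Cube} (hG : IsMinimalDenseGδ G) (K : ℕ → ℕ) :
    ∃ b : ℕ → ℕ → Set Cube, (∀ j, Pairwise (fun n m => Disjoint (closure (b j n)) (closure (b j m)))) ∧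
      (∀ j k, ∀ᶠ n in atTop, Small k (b j n)) ∧ (∀ j n, Small (K j) (b j n)) ∧
      G ⊆ ⋂ j, ⋃ n, b j n := by
  obtain ⟨b, hb, hs⟩ := minimal_good hG
  choose φ hφ using fun j => (hb.mesh (K j)).exists
  refine ⟨fun j => b (φ j), fun j => hb.disj _, fun j k => hb.null _ k, hφ, ?_⟩
  intro x hx
  have := hs hx
  rw [mem_iInter] at this ⊢
  exact fun j => this (φ j)

end Pool.Agent.Helper75.HC
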