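import Mathlib
import Pool.Agent.Helper75.HC.Null
import Pool.Agent.Helper75.HC.Localize

set_option autoImplicit false

namespace Pool.Agent.Helper75.HC

open Set Filter Topology

lemma closure_small {k c : ℕ} (hc : c < k) {b : Set Cube} (hb : Small k b) {x y : Cube}
    (hx : x ∈ closure b) (hy : y ∈ closure b) : |(x c : ℝ) - y c| ≤ 1 / ((k : ℝ) + 1) := by
  have hcl : IsClosed {p : Cube × Cube | |((p.1 c : unitInterval) : ℝ) - p.2 c| ≤ 1 / ((k : ℝ) + 1)} := by
    apply isClosed_le _ continuous_const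
    fun_prop
  have h1 : b ×ˢ b ⊆ {p : Cube × Cube | |((p.1 c : unitInterval) : ℝ) - p.2 c| ≤ 1 / ((k : ℝ) + 1)} := by
    rintro ⟨u, v⟩ ⟨hu, hv⟩
    exact (hb u hu v hv c hc).le
  have h2 := closure_minimal h1 hcl
  rw [closure_prod_eq] at h2
  exact h2 (show (x, y) ∈ closure b ×ˢ closure b from ⟨hx, hy⟩)

lemma not_both {k c : ℕ} (hc : c < k) {b : Set Cube} (hb : Small k b) {x y : Cube}
    (hx : x ∈ closure b) (hy : y ∈ closure b) (h0 : x c = 0) : y c ≠ 1 := by
  intro h1
  have h := closure_small hc hb hx hy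
  rw [h0, h1] at h
  simp only [Set.Icc.coe_zero, Set.Icc.coe_one, zero_sub, abs_neg, abs_one] at h
  have hk : (1 : ℝ) ≤ k := by exact_mod_cast (show 1 ≤ k by omega)
  have : 1 / ((k : ℝ) + 1) < 1 := by
    rw [div_lt_one (by positivity)]
    linarith
  linarith

/-- countable supply of open sets -/
noncomputable def UU (t : Finset (TopologicalSpace.countableBasis Cube)) : Set Cube := ⋃ W ∈ t, (W : Set Cube)

lemma isOpen_UU (t : Finset (TopologicalSpace.countableBasis Cube)) : IsOpen (UU t) := by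
  classical
  unfold UU
  apply isOpen_biUnion
  intro W _
  exact TopologicalSpace.isOpen_of_mem_countableBasis W.2

lemma exists_UU {E E' : Set Cube} (hE : IsClosed E) (hE' : IsClosed E') (hd : Disjoint E E') :
    ∃ t : Finset (TopologicalSpace.countableBasis Cube), E ⊆ UU t ∧ Disjoint E' (closure (UU t)) := by
  classical
  have hc : IsCompact E := hE.isCompact
  refine hc.induction_on (p := fun S => ∃ t : Finset (TopologicalSpace.countableBasis Cube),
    S ⊆ UU t ∧ Disjoint E' (closure (UU t))) ?_ ?_ ?_ ?_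
  · exact ⟨∅, empty_subset _, by simp [UU]⟩
  · rintro s t hst ⟨u, hu1, hu2⟩
    exact ⟨u, hst.trans hu1, hu2⟩
  · rintro s t ⟨u, hu1, hu2⟩ ⟨v, hv1, hv2⟩
    have hUV : UU (u ∪ v) = UU u ∪ UU v := by
      unfold UU
      rw [Finset.set_biUnion_union]
    refine ⟨u ∪ v, ?_, ?_⟩
    · rw [hUV]
      exact union_subset_union hu1 hv1
    · rw [hUV, closure_union]
      exact hu2.union_right hv2
  · intro x hx
    have hx' : x ∉ E' := Set.disjoint_left.1 hd hx
    have h2 : E'ᶜ ∈ 𝓝 x := hE'.isOpen_compl.mem_nhds hx'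
    obtain ⟨W2, hW1, hW2c, hW2⟩ := exists_mem_nhds_isClosed_subset h2
    obtain ⟨V, hV, hxV, hVW⟩ := (TopologicalSpace.isBasis_countableBasis Cube).mem_nhds_iff.1 hW1
    refine ⟨V, mem_nhdsWithin_of_mem_nhds ((TopologicalSpace.isOpen_of_mem_countableBasis hV).mem_nhds hxV),
      {⟨V, hV⟩}, ?_, ?_⟩
    · simp [UU]
    · have h3 : UU {⟨V, hV⟩} = V := by simp [UU]
      rw [h3]
      have h4 : closure V ⊆ W2 := closure_minimal hVW hW2c
      exact Set.disjoint_left.2 fun y hy hy2 => hW2 (h4 hy2) hy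

/-- partition sets -/
def Part (c : ℕ) (U : Set Cube) : Prop := {x : Cube | x c = 0} ⊆ U ∧ Disjoint {x : Cube | x c = 1} U

lemma separate (c k : ℕ) (hc : c < k) (b : ℕ → Set Cube)
    (hd : Pairwise (fun n m => Disjoint (closure (b n)) (closure (b m)))) (N : Set ℕ) (hN : N.Finite)
    (hb : ∀ n ∈ N, Small k (b n)) :
    ∃ t : Finset (TopologicalSpace.countableBasis Cube), Part c (UU t) ∧
      ∀ n ∈ N, Disjoint (frontier (UU t)) (closure (b n)) := by
  classical
  set N0 : Set ℕ := {n ∈ N | ∃ x ∈ closure (b n), x c = 0} with hN0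
  set N1 : Set ℕ := {n ∈ N | ¬ ∃ x ∈ closure (b n), x c = 0} with hN1
  have hA : IsClosed {x : Cube | x c = 0} := isClosed_eq (continuous_apply c) continuous_const
  have hB : IsClosed {x : Cube | x c = 1} := isClosed_eq (continuous_apply c) continuous_const
  have hE : IsClosed ({x : Cube | x c = 0} ∪ ⋃ n ∈ N0, closure (b n)) :=
    hA.union ((hN.subset (sep_subset _ _)).isClosed_biUnion fun n _ => isClosed_closure)
  have hE' : IsClosed ({x : Cube | x c = 1} ∪ ⋃ n ∈ N1, closure (b n)) :=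
    hB.union ((hN.subset (sep_subset _ _)).isClosed_biUnion fun n _ => isClosed_closure)
  have hdis : Disjoint ({x : Cube | x c = 0} ∪ ⋃ n ∈ N0, closure (b n))
      ({x : Cube | x c = 1} ∪ ⋃ n ∈ N1, closure (b n)) := by
    rw [Set.disjoint_left]
    rintro x (hx | hx) (hy | hy)
    · simp only [Set.mem_ofPred_eq] at hx hy
      rw [hx] at hy
      exact absurd hy (by simp)
    · simp only [mem_iUnion, exists_prop] at hy
      obtain ⟨n, hn, hxn⟩ := hy
      exact hn.2 ⟨x, hxn, hx⟩
    · simp only [mem_iUnion, exists_prop] at hx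
      obtain ⟨n, ⟨hn, z, hz, hz0⟩, hxn⟩ := hx
      exact not_both hc (hb n hn) hz hxn hz0 hy
    · simp only [mem_iUnion, exists_prop] at hx hy
      obtain ⟨n, hn, hxn⟩ := hx
      obtain ⟨m, hm, hxm⟩ := hy
      have hnm : n ≠ m := by
        rintro rfl
        exact hm.2 hn.2
      exact Set.disjoint_left.1 (hd hnm) hxn hxm
  obtain ⟨t, ht1, ht2⟩ := exists_UU hE hE' hdis
  refine ⟨t, ⟨fun x hx => ht1 (Or.inl hx), ?_⟩, ?_⟩
  · rw [Set.disjoint_left] at ht2 ⊢
    exact fun x hx hx2 => ht2 (Or.inl hx) (subset_closure hx2)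
  · intro n hn
    rw [Set.disjoint_left]
    intro x hx hxn
    rw [(isOpen_UU t).frontier_eq] at hx
    by_cases h : ∃ x ∈ closure (b n), x c = 0
    · apply hx.2
      apply ht1
      right
      simp only [mem_iUnion, exists_prop]
      exact ⟨n, ⟨hn, h⟩, hxn⟩
    · apply Set.disjoint_left.1 ht2 _ hx.1
      right
      simp only [mem_iUnion, exists_prop]
      exact ⟨n, ⟨hn, h⟩, hxn⟩

/-- the coordinate governed by the `s`-th guess at stage `m` for level `j` -/
def coord (m s j : ℕ) : ℕ := Nat.pair m (Nat.pair s j)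

/-- smallness needed at stage `m` -/
def KK (m : ℕ) : ℕ := (Finset.range (m + 1) ×ˢ Finset.range (m + 1)).sup (fun p => coord m p.1 p.2) + 1

lemma coord_lt {m s j : ℕ} (hs : s < m + 1) (hj : j < m + 1) : coord m s j < KK m := by
  unfold KK
  rw [Nat.lt_succ_iff]
  exact Finset.le_sup (f := fun p : ℕ × ℕ => coord m p.1 p.2) (b := (s, j))
    (Finset.mem_product.2 ⟨Finset.mem_range.2 hs, Finset.mem_range.2 hj⟩)

/-- the main lower bound -/
theorem lower (MA : MartinsAxiom) (𝒯 : Set (Set Cube)) (h𝒯 : ∀ G ∈ 𝒯, IsMinimalDenseGδ G)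
    (hc : Cardinal.mk 𝒯 < Cardinal.continuum) : ∃ x : Cube, x ∉ ⋃₀ 𝒯 := by
  classical
  choose b hdis hnull hK hsub using fun G : 𝒯 => minimal_good' (h𝒯 G.1 G.2) KK
  -- blocks
  set blk : 𝒯 → ℕ → ℕ → ℕ := fun i j n => Nat.findGreatest (fun m => Small (KK m) (b i j n)) (j + n) with hblk
  have hblk1 : ∀ i j n, Small (KK (blk i j n)) (b i j n) := fun i j n =>
    Nat.findGreatest_spec (P := fun m => Small (KK m) (b i j n)) (Nat.le_add_right j n) (hK i j n)
  have hblk2 : ∀ i j n, j ≤ blk i j n := fun i j n =>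
    Nat.le_findGreatest (P := fun m => Small (KK m) (b i j n)) (Nat.le_add_right j n) (hK i j n)
  have hfin : ∀ i j m, {n | blk i j n = m}.Finite := by
    intro i j m
    have h1 : ∀ᶠ n in atTop, blk i j n ≠ m := by
      filter_upwards [hnull i j (KK (m + 1)), eventually_ge_atTop (m + 1)] with n h2 h3
      have h4 : m + 1 ≤ blk i j n :=
        Nat.le_findGreatest (P := fun m => Small (KK m) (b i j n)) (by omega) h2
      omega
    rw [← Nat.cofinite_eq_atTop, Filter.eventually_cofinite] at h1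
    simpa using h1
  -- separating sets
  have hsep : ∀ (i : 𝒯) (m : ℕ) (s j : Fin (m + 1)), ∃ t : Finset (TopologicalSpace.countableBasis Cube),
      Part (coord m s j) (UU t) ∧ ∀ n ∈ {n | blk i j n = m}, Disjoint (frontier (UU t)) (closure (b i j n)) := by
    intro i m s j
    apply separate (coord m s j) (KK m) (coord_lt s.2 j.2) (b i j) (hdis i j) _ (hfin i j m)
    intro n hn
    have h1 := hblk1 i j n
    rw [hn] at h1
    exact h1
  choose t ht1 ht2 using hsep
  -- coding
  have hcount : ∀ m : ℕ, ∃ e : (Fin (m + 1) → Fin (m + 1) → Finset (TopologicalSpace.countableBasis Cube)) → ℕ,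
      Function.Injective e := by
    intro m
    have : Countable (TopologicalSpace.countableBasis Cube) :=
      (TopologicalSpace.countable_countableBasis Cube).to_subtype
    exact exists_injective_nat _
  choose e he using hcount
  obtain ⟨S, hS1, hS2⟩ := localize MA (fun (i : 𝒯) m => e m (t i m)) hc
  -- the partition sets
  set guess : ∀ m : ℕ, ℕ → (Fin (m + 1) → Fin (m + 1) → Finset (TopologicalSpace.countableBasis Cube)) :=
    fun m s => Function.invFun (e m) (((S m).sort (· ≤ ·)).getD s 0) with hguess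
  set W : ℕ → ℕ → ℕ → ℕ → Set Cube := fun m s j c =>
    if h : s < m + 1 ∧ j < m + 1 ∧ Part c (UU (guess m s (Fin.ofNat (m + 1) s) (Fin.ofNat (m + 1) j))) then
      UU (guess m s (Fin.ofNat (m + 1) s) (Fin.ofNat (m + 1) j))
    else {x : Cube | (x c : ℝ) < 1 / 2} with hW
  set V : ℕ → Set Cube := fun c => W (Nat.unpair c).1 (Nat.unpair (Nat.unpair c).2).1
    (Nat.unpair (Nat.unpair c).2).2 c with hV
  have hVo : ∀ c, IsOpen (V c) := by
    intro c
    simp only [hV, hW]
    split_ifs
    · exact isOpen_UU _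
    · exact isOpen_lt (by fun_prop) continuous_const
  have hVp : ∀ c, Part c (V c) := by
    intro c
    simp only [hV, hW]
    split_ifs with h
    · exact h.2.2
    · constructor
      · intro x hx
        simp only [Set.mem_ofPred_eq] at hx ⊢
        rw [hx]; norm_num
      · rw [Set.disjoint_left]
        intro x hx hx2
        simp only [Set.mem_ofPred_eq] at hx hx2
        rw [hx] at hx2
        norm_num at hx2
  obtain ⟨x, hx⟩ := essential V hVo (fun c => (hVp c).1) (fun c => (hVp c).2)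
  refine ⟨x, ?_⟩
  rintro ⟨G, hG, hxG⟩
  set i : 𝒯 := ⟨G, hG⟩ with hi
  obtain ⟨m0, hm0⟩ := eventually_atTop.1 (hS2 i)
  have h1 := hsub i hxG
  rw [mem_iInter] at h1
  obtain ⟨n, hn⟩ := mem_iUnion.1 (h1 m0)
  set m := blk i m0 n with hm
  have hmm : m0 ≤ m := hblk2 i m0 n
  have h2 := hm0 m hmm
  -- position in the sorted list
  have h3 : e m (t i m) ∈ (S m).sort (· ≤ ·) := by simpa using h2
  obtain ⟨s, hs, hs2⟩ := List.getElem_of_mem h3
  have hlen : ((S m).sort (· ≤ ·)).length ≤ m := by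
    rw [Finset.length_sort]; exact hS1 m
  have hsm : s < m + 1 := by omega
  have hjm : m0 < m + 1 := by omega
  have hg : guess m s = t i m := by
    simp only [hguess]
    rw [List.getD_eq_getElem _ _ hs, hs2]
    exact Function.leftInverse_invFun (he m) _
  have hfs : ∀ a (h : a < m + 1), Fin.ofNat (m + 1) a = ⟨a, h⟩ := by
    intro a h
    apply Fin.ext
    simp [Nat.mod_eq_of_lt h]
  have hVc : V (coord m s m0) = UU (t i m ⟨s, hsm⟩ ⟨m0, hjm⟩) := by
    have hP : Part (coord m s m0) (UU (t i m ⟨s, hsm⟩ ⟨m0, hjm⟩)) := ht1 i m ⟨s, hsm⟩ ⟨m0, hjm⟩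
    have hV1 : V (coord m s m0) = W m s m0 (coord m s m0) := by
      simp only [hV]
      unfold coord
      simp only [Nat.unpair_pair]
    rw [hV1]
    simp only [hW]
    rw [dif_pos]
    · rw [hg, hfs s hsm, hfs m0 hjm]
    · refine ⟨hsm, hjm, ?_⟩
      rw [hg, hfs s hsm, hfs m0 hjm]
      exact hP
  have h4 := hx (coord m s m0)
  rw [hVc] at h4
  exact Set.disjoint_left.1 (ht2 i m ⟨s, hsm⟩ ⟨m0, hjm⟩ n rfl) h4 (subset_closure hn)

end Pool.Agent.Helper75.HC
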